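import Pool.Agent.W321.SQ.Comb

/-! Project SQ (helper321), part COMB: the combinatorial assembly. -/

set_option autoImplicit false

namespace Pool.Agent.W959.SQ

open Finset Pool.Agent.W321.SP Pool.Agent.W321.SQ

theorem enum (n : ℕ) : ∀ m : Multiset ℕ, Multiset.card m = n →
    ∃ x : ℕ → ℕ, (∑ i ∈ range n, ({x i} : Multiset ℕ)) = m := by
  induction n with
  | zero => exact fun m hm => ⟨fun _ => 0, by simpa using (Multiset.card_eq_zero.1 hm).symm⟩
  | succ n ih =>
    intro m hm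
    obtain ⟨b, m', rfl⟩ : ∃ b m', m = b ::ₘ m' := by
      have : m ≠ 0 := by rintro rfl; simp at hm
      obtain ⟨b, hb⟩ := Multiset.exists_mem_of_ne_zero this
      exact ⟨b, _, (Multiset.cons_erase hb).symm⟩
    obtain ⟨x, hx⟩ := ih m' (by simpa using hm)
    refine ⟨fun i => if i < n then x i else b, ?_⟩
    rw [Finset.sum_range_succ]
    have : ∑ i ∈ range n, ({if i < n then x i else b} : Multiset ℕ) = m' := by
      rw [← hx]
      refine Finset.sum_congr rfl (fun i hi => ?_)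
      rw [if_pos (Finset.mem_range.1 hi)]
    simp only [this, lt_irrefl, if_false]
    rw [add_comm, Multiset.singleton_add]

theorem enum' (n : ℕ) (m : Multiset ℕ) (hm : Multiset.card m = n) :
    ∃ x : ℕ → ℕ, (∑ i ∈ range n, ({x i} : Multiset ℕ)) = m ∧ ∀ i < n, x i ∈ m := by
  obtain ⟨x, hx⟩ := enum n m hm
  refine ⟨x, hx, fun i hi => ?_⟩
  rw [← hx, Multiset.mem_sum]
  exact ⟨i, Finset.mem_range.2 hi, Multiset.mem_singleton_self _⟩

theorem mt_ft {g₁ g₂ g₃ x : ℕ} (hP : P3 g₁ g₂ g₃) (h1 : Mt g₁ g₂ g₃ x) (h2 : Ft g₁ g₂ g₃ x) :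
    False := by
  obtain ⟨h3, h4, h5⟩ := h2
  rcases h1 with h1 | h1
  · rcases h4 with h4 | h4
    · exact hP.p1.one_lt.ne' (Nat.dvd_one.1 (h1 ▸ Nat.dvd_gcd h4
        ((dvd_mul_right _ _).mul_right _)))
    · exact hP.p2.one_lt.ne' (Nat.dvd_one.1 (h1 ▸ Nat.dvd_gcd h4
        ((dvd_mul_left _ _).mul_right _)))
  · exact h5 ((dvd_mul_left _ _).trans h1)

theorem ad_le {a b B : ℕ} (ha : a ≤ B) (hb : b ≤ B) : ad a b ≤ B := by unfold ad; omega

theorem sd (A B : Finset ℕ) : A.val + (B \ A).val = B.val + (A \ B).val := by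
  ext x
  have h1 : ∀ C : Finset ℕ, Multiset.count x C.val = if x ∈ C then 1 else 0 := fun C =>
    Multiset.count_eq_of_nodup C.nodup
  rw [Multiset.count_add, Multiset.count_add, h1, h1, h1, h1]
  simp only [mem_sdiff]
  by_cases h2 : x ∈ A <;> by_cases h3 : x ∈ B <;> simp [h2, h3]

theorem mv {α : Type} {t : Finset α} {x : α} : x ∈ t.val ↔ x ∈ t := Iff.rfl

theorem sum_sing {V : Type} (t : Finset V) (f : V → ℕ) :
    ∑ x ∈ t, ({f x} : Multiset ℕ) = t.val.map f := by
  classical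
  induction t using Finset.induction_on with
  | empty => simp
  | insert x t hx ih =>
    rw [Finset.sum_insert hx, ih, Finset.insert_val_of_notMem hx, Multiset.map_cons,
      Multiset.singleton_add]

theorem z_comb (hU : UnStm) (hK : KlStm) (hA : AsmStm) (hF : FillStm) : CombStm := by
  intro V _ _ T hT v par rk hRt hadj hadj' L₀ hL₀ K Gd c₀ c₁ d hClu n a hChs haK g₁ g₂ g₃ B U s b₀
    hP hg hn hb₀ hgU hg3U hs hBU hsU hUB hUT
  obtain ⟨W, pc, hvW, hpc, hcard, hchild, haW, hGdW, haGd, hasm⟩ :=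
    hA V v par rk n a K Gd c₀ c₁ d L₀ hRt hChs hClu haK hL₀
  obtain ⟨g, hgv, hgB, hginj, hdinj, hb, hMt⟩ := hg W pc hvW hpc hcard hchild
  set δ : V → ℕ := fun x => ad (g x) (g (pc x)) with hδ
  set LL := (W.erase v).image g with hLL
  set DD := (W.erase v).image δ with hDD
  have hLmem : ∀ x ∈ LL, 1 ≤ x ∧ x ≤ B ∧ Mt g₁ g₂ g₃ x := by
    intro x hx
    refine ⟨?_, ?_, hMt x (mem_union_left _ hx)⟩
    · obtain ⟨w, hw, rfl⟩ := mem_image.1 hx
      by_contra hcon
      have h0 : g w = g v := by omega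
      exact (mem_erase.1 hw).1 (hginj w (mem_erase.1 hw).2 v hvW h0)
    · obtain ⟨w, hw, rfl⟩ := mem_image.1 hx
      exact hgB w (mem_erase.1 hw).2
  have hDmem : ∀ x ∈ DD, 1 ≤ x ∧ x ≤ B ∧ Mt g₁ g₂ g₃ x := by
    intro x hx
    refine ⟨?_, ?_, hMt x (mem_union_right _ hx)⟩
    · obtain ⟨w, hw, rfl⟩ := mem_image.1 hx
      have h1 := hpc w (mem_erase.1 hw).2 (mem_erase.1 hw).1
      refine ad_pos (fun h => ?_)
      have h2 := hginj w (mem_erase.1 hw).2 _ h1.1 h
      rw [← h2] at h1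
      exact lt_irrefl _ h1.2
    · obtain ⟨w, hw, rfl⟩ := mem_image.1 hx
      have h1 := hpc w (mem_erase.1 hw).2 (mem_erase.1 hw).1
      exact ad_le (hgB w (mem_erase.1 hw).2) (hgB _ h1.1)
  set Q : Finset V := (range n).image (fun i => a i 68) ∪ Gd.image d with hQ
  have hQW : Q ⊆ W.erase v := by
    intro x hx
    rcases mem_union.1 hx with hx | hx
    · obtain ⟨i, hi, rfl⟩ := mem_image.1 hx
      have h1 := haW i (Finset.mem_range.1 hi)
      exact mem_erase.2 ⟨h1.2.2.2.1, h1.2.1⟩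
    · obtain ⟨u, hu, rfl⟩ := mem_image.1 hx
      have h1 := hGdW u hu
      exact mem_erase.2 ⟨h1.2.1, h1.1⟩
  have ha_inj : Set.InjOn (fun i => a i 68) (range n : Set ℕ) := by
    intro i hi j hj hij
    exact (hChs.inj i (Finset.mem_range.1 (mem_coe.1 hi)) 68 (by norm_num) j
      (Finset.mem_range.1 (mem_coe.1 hj)) 68 (by norm_num) hij).1
  have hd_inj : Set.InjOn d (Gd : Set V) := by
    intro x hx y hy hxy
    rw [← hClu.d_par x (mem_coe.1 hx), ← hClu.d_par y (mem_coe.1 hy), hxy]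
  have hdisj : Disjoint ((range n).image (fun i => a i 68)) (Gd.image d) := by
    rw [Finset.disjoint_left]
    intro x hx hx'
    obtain ⟨i, hi, rfl⟩ := mem_image.1 hx
    obtain ⟨u, hu, hu'⟩ := mem_image.1 hx'
    exact haGd i (Finset.mem_range.1 hi) u hu hu'
  have hQcard : Q.card = n + Gd.card := by
    rw [hQ, card_union_of_disjoint hdisj, card_image_of_injOn ha_inj, card_image_of_injOn hd_inj,
      card_range]
  have hδinj : Set.InjOn δ (W.erase v : Finset V) := fun x hx y hy hxy =>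
    hdinj x (mem_coe.1 hx) y (mem_coe.1 hy) hxy
  have hginj' : Set.InjOn g (W.erase v : Finset V) := fun x hx y hy hxy =>
    hginj x (mem_erase.1 (mem_coe.1 hx)).2 y (mem_erase.1 (mem_coe.1 hy)).2 hxy
  set D' := ((W.erase v) \ Q).image δ with hD'
  have hδinj' : Set.InjOn δ ((W.erase v) \ Q : Finset V) :=
    hδinj.mono (by exact_mod_cast sdiff_subset)
  have hD'DD : D' ⊆ DD := image_subset_image sdiff_subset
  have hcL : LL.card = (W.erase v).card := card_image_of_injOn hginj'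
  have hcD : DD.card = (W.erase v).card := card_image_of_injOn hδinj
  have hcD' : D'.card + (n + Gd.card) = (W.erase v).card := by
    rw [hD', card_image_of_injOn hδinj', ← hQcard]
    exact card_sdiff_add_card_eq_card hQW
  set X0 := D' \ LL with hX0
  set E0 := LL \ D' with hE0
  have hX0c : X0.card ≤ b₀ := by
    calc X0.card ≤ (DD \ LL).card := card_le_card (sdiff_subset_sdiff hD'DD le_rfl)
      _ = (LL \ DD).card := card_sdiff_comm (hcD.trans hcL.symm)
      _ ≤ b₀ := hb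
  have hsd : LL.val + X0.val = D'.val + E0.val := sd LL D'
  have hE0c : E0.card = X0.card + (n + Gd.card) := by
    have := congrArg Multiset.card hsd
    rw [Multiset.card_add, Multiset.card_add] at this
    change LL.card + X0.card = D'.card + E0.card at this
    omega
  have hKcard : Gd.card + 1 ≤ K.card := by
    have h1 := card_le_card hClu.gd
    rw [card_erase_of_mem hClu.c0] at h1
    have h2 := card_pos.2 ⟨c₀, hClu.c0⟩
    omega
  have hK2 : 2 ≤ K.card := by
    have : ({c₀, c₁} : Finset V) ⊆ K := by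
      intro x hx
      rcases mem_insert.1 hx with rfl | hx
      · exact hClu.c0
      · rw [mem_singleton.1 hx]; exact hClu.c1
    have h := card_le_card this
    rwa [card_pair hClu.ne.symm] at h
  have hKv : ∀ x ∈ K, x ≠ v := fun x hx h => hClu.v_not (h ▸ hx)
  obtain ⟨nf, hnf⟩ : ∃ nf, nf + (X0.card + (K.card - 2) + Gd.card) = n :=
    ⟨n - (X0.card + (K.card - 2) + Gd.card), by omega⟩
  obtain ⟨y, x, S, hy0, hy1, hy1', hyK, hyH, hymid, hx, hS, hnd, hmem⟩ :=
    hK V g₁ g₂ g₃ U s nf K Gd c₀ c₁ par rk (fun u => g (d u)) hP hgU hg3U hs hClu.c0 hClu.c1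
      hClu.ne hClu.par1
      (fun x hx hx' => ⟨hClu.up x hx hx', by rw [hRt.rp x (hKv x hx)]; omega⟩) hClu.gd
      (fun x hx => by
        have h1 := hGdW x hx
        have h2 := hLmem (g (d x)) (mem_image_of_mem _ (mem_erase.2 ⟨h1.2.1, h1.1⟩))
        exact ⟨h2.1, h2.2.2⟩)
      (le_trans (Nat.mul_le_mul_left _ (by omega)) hsU)
  set E1 : Multiset ℕ := (K.erase c₀).val.map y with hE1
  set X1a : Multiset ℕ := ((K.erase c₀).erase c₁).val.map (fun u => ad (y u) (y (par u))) with hX1a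
  set X1b : Multiset ℕ := Gd.val.map (fun u => ad (g (d u)) (y u)) with hX1b
  set Fi : Multiset ℕ := ∑ i ∈ range nf, ({x i} : Multiset ℕ) with hFi
  have hE1c : Multiset.card E1 = K.card - 1 := by
    rw [hE1, Multiset.card_map]
    exact card_erase_of_mem hClu.c0
  have hX1ac : Multiset.card X1a = K.card - 2 := by
    rw [hX1a, Multiset.card_map]
    have h1 := card_erase_of_mem (mem_erase.2 ⟨hClu.ne, hClu.c1⟩)
    have h2 := card_erase_of_mem hClu.c0
    change ((K.erase c₀).erase c₁).card = _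
    omega
  have hX1bc : Multiset.card X1b = Gd.card := by
    rw [hX1b, Multiset.card_map]
    rfl
  have hFic : Multiset.card Fi = nf := by
    rw [hFi, Multiset.card_sum]
    simp
  have hs1 : 1 ≤ s := by
    have h1 := hP.p1.pos
    have h2 := hP.p2.pos
    have h3 := hP.p3.pos
    have : 0 < 10 ^ 4 * (g₁ * g₂ * g₃) := by positivity
    omega
  have hUs : 1000 * s ≤ U := le_trans (Nat.le_mul_of_pos_right _ (by omega)) hsU
  -- the elements of the Kl multiset are at most B
  have hyB : ∀ u ∈ K, u ≠ c₀ → y u ≤ B := by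
    intro u hu hu0
    by_cases hu1 : u = c₁
    · subst hu1; omega
    · have := hymid u hu hu0 hu1; omega
  have hE1B : ∀ b ∈ E1, b ≤ B := by
    intro b hb
    obtain ⟨u, hu, rfl⟩ := Multiset.mem_map.1 hb
    have hu' := mem_erase.1 (mv.1 hu)
    exact hyB u hu'.2 hu'.1
  have hX1aB : ∀ b ∈ X1a, b ≤ B := by
    intro b hb
    obtain ⟨u, hu, rfl⟩ := Multiset.mem_map.1 hb
    have hu1 := mem_erase.1 (mv.1 hu)
    have hu' := mem_erase.1 hu1.2
    have h1 := hymid u hu'.2 hu'.1 hu1.1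
    by_cases h2 : par u = c₀
    · rw [h2, hy0]
      unfold ad
      omega
    · exact ad_le (hyB u hu'.2 hu'.1) (hyB _ (hClu.up u hu'.2 hu'.1) h2)
  have hX1bB : ∀ b ∈ X1b, b ≤ B := by
    intro b hb
    obtain ⟨u, hu, rfl⟩ := Multiset.mem_map.1 hb
    have hu1 := mem_erase.1 (hClu.gd (mv.1 hu))
    exact ad_le (hgB _ (hGdW u (mv.1 hu)).1) (hyB u hu1.2 hu1.1)
  have hFiB : ∀ b ∈ Fi, b ≤ B := by
    intro b hb
    obtain ⟨i, hi, hb⟩ := Multiset.mem_sum.1 hb
    rw [Multiset.mem_singleton.1 hb]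
    have := hx i (Finset.mem_range.1 hi)
    omega
  have hRB : ∀ b ∈ E1 + X1a + X1b + Fi, b ≤ B := by
    intro b hb
    rcases Multiset.mem_add.1 hb with hb | hb
    · rcases Multiset.mem_add.1 hb with hb | hb
      · rcases Multiset.mem_add.1 hb with hb | hb
        · exact hE1B b hb
        · exact hX1aB b hb
      · exact hX1bB b hb
    · exact hFiB b hb
  have hR1 : ∀ b ∈ E1 + X1a + X1b + Fi, 1 ≤ b := fun b hb => (hmem b hb).1.1
  have hX0m : ∀ b ∈ X0.val, 1 ≤ b ∧ b ≤ B ∧ Mt g₁ g₂ g₃ b := fun b hb =>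
    hDmem b (hD'DD (mem_sdiff.1 (mv.1 hb)).1)
  have hE0m : ∀ b ∈ E0.val, 1 ≤ b ∧ b ≤ B ∧ Mt g₁ g₂ g₃ b := fun b hb =>
    hLmem b (mem_sdiff.1 (mv.1 hb)).1
  obtain ⟨x', hx', hx'm⟩ := enum' n (X0.val + X1a + X1b + Fi) (by
    rw [Multiset.card_add, Multiset.card_add, Multiset.card_add, hX1ac, hX1bc, hFic]
    change X0.card + _ + _ + _ = _
    omega)
  obtain ⟨E', hE', hE'm⟩ := enum' (2 * n + 1) (E0.val + E1 + Fi) (by
    rw [Multiset.card_add, Multiset.card_add, hE1c, hFic]
    change E0.card + _ + _ = _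
    omega)
  have hx'B : ∀ i < n, 1 ≤ x' i ∧ x' i ≤ B := by
    intro i hi
    have h1 := hx'm i hi
    rcases Multiset.mem_add.1 h1 with hb | hb
    · rcases Multiset.mem_add.1 hb with hb | hb
      · rcases Multiset.mem_add.1 hb with hb | hb
        · exact ⟨(hX0m _ hb).1, (hX0m _ hb).2.1⟩
        · exact ⟨hR1 _ (by simp only [Multiset.mem_add]; tauto), hX1aB _ hb⟩
      · exact ⟨hR1 _ (by simp only [Multiset.mem_add]; tauto), hX1bB _ hb⟩
    · exact ⟨hR1 _ (by simp only [Multiset.mem_add]; tauto), hFiB _ hb⟩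
  have hE'B : ∀ i ≤ 2 * n, 1 ≤ E' i ∧ E' i ≤ B := by
    intro i hi
    have h1 := hE'm i (by omega)
    rcases Multiset.mem_add.1 h1 with hb | hb
    · rcases Multiset.mem_add.1 hb with hb | hb
      · exact ⟨(hE0m _ hb).1, (hE0m _ hb).2.1⟩
      · exact ⟨hR1 _ (by simp only [Multiset.mem_add]; tauto), hE1B _ hb⟩
    · exact ⟨hR1 _ (by simp only [Multiset.mem_add]; tauto), hFiB _ hb⟩
  have hyc1 : g₁ ∣ y c₁ := (hyK c₁ hClu.c1).1
  have hGpos : 0 < g₁ * g₂ * g₃ := by
    have h1 := hP.p1.pos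
    have h2 := hP.p2.pos
    have h3 := hP.p3.pos
    positivity
  have hBH : B + 10 ^ 7 * (g₁ * g₂ * g₃) * n ≤ U - y c₁ := by omega
  have hBH' : B < U - y c₁ := by
    have : 0 < 10 ^ 7 * (g₁ * g₂ * g₃) * n := by positivity
    omega
  have hg1H : g₁ ∣ U - y c₁ := Nat.dvd_sub hgU hyc1
  obtain ⟨yl, N, hyl, hNnd, hHN, hNm, hsum1, hsum2⟩ :=
    hU g₁ g₂ g₃ B (U - y c₁) s n (fun i => g (a i 0)) (fun i => g (a i 68)) x' E' S hP hn hg1H hyH
      (fun i hi => by
        have h1 := haW i hi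
        have h2 := hLmem (g (a i 0)) (mem_image_of_mem _ (mem_erase.2 ⟨h1.2.2.1, h1.1⟩))
        have h3 := hLmem (g (a i 68)) (mem_image_of_mem _ (mem_erase.2 ⟨h1.2.2.2.1, h1.2.1⟩))
        exact ⟨h2.1, h2.2.1, h3.1, h3.2.1, hx'B i hi⟩) hE'B hS hs hBH
  obtain ⟨f, hfv, hf1, hf2⟩ := hasm g yl y hgv hyl
  rw [hx'] at hsum1
  rw [hE'] at hsum2
  have hK0 : K.val.map y = {U} + E1 := by
    rw [hE1, ← Finset.insert_erase hClu.c0,
      Finset.insert_val_of_notMem (Finset.notMem_erase _ _), Multiset.map_cons, hy0,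
      Multiset.singleton_add, Finset.insert_erase hClu.c0]
  have hK1 : (K.erase c₀).val.map (fun x => ad (y x) (y (par x))) = {U - y c₁} + X1a := by
    have hc : c₁ ∈ K.erase c₀ := mem_erase.2 ⟨hClu.ne, hClu.c1⟩
    rw [hX1a]
    conv_lhs => rw [← Finset.insert_erase hc]
    rw [Finset.insert_val_of_notMem (Finset.notMem_erase _ _), Multiset.map_cons,
      Multiset.singleton_add, hClu.par1, hy0]
    congr 1
    unfold ad
    omega
  have hLL' : (W.erase v).val.map g = LL.val := (Finset.image_val_of_injOn hginj').symm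
  have hQm : Q.val.map δ = ∑ i ∈ range n, ({ad (g (a i 0)) (g (a i 68))} : Multiset ℕ) +
      ∑ x ∈ Gd, ({g (d x)} : Multiset ℕ) := by
    rw [sum_sing, sum_sing, hQ, ← Finset.disjUnion_eq_union _ _ hdisj]
    change Multiset.map δ (((range n).image (fun i => a i 68)).val + (Gd.image d).val) = _
    rw [Multiset.map_add, Finset.image_val_of_injOn ha_inj, Finset.image_val_of_injOn hd_inj,
      Multiset.map_map, Multiset.map_map]
    congr 1
    · refine Multiset.map_congr rfl (fun i hi => ?_)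
      have h1 := haW i (Finset.mem_range.1 (mv.1 hi))
      change ad (g (a i 68)) (g (pc (a i 68))) = _
      rw [h1.2.2.2.2, ad_comm]
    · refine Multiset.map_congr rfl (fun u hu => ?_)
      have h1 := hGdW u (mv.1 hu)
      change ad (g (d u)) (g (pc (d u))) = _
      rw [h1.2.2, hgv]
      unfold ad
      omega
  have hDDm : (W.erase v).val.map δ = D'.val + Q.val.map δ := by
    rw [hD', Finset.image_val_of_injOn hδinj', ← Multiset.map_add]
    congr 1
    have h1 : Disjoint ((W.erase v) \ Q) Q := sdiff_disjoint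
    have h2 : (W.erase v) = ((W.erase v) \ Q).disjUnion Q h1 := by
      rw [Finset.disjUnion_eq_union, sdiff_union_of_subset hQW]
    conv_lhs => rw [h2]
    rfl
  have hf1' : ((univ \ L₀).erase v).val.map f =
      LL.val + (N + (X0.val + X1a + X1b + Fi)) + ({U} + E1) := by
    rw [hf1, hLL', hsum1, hK0]
  have hf2' : ((univ \ L₀).erase v).val.map (fun x => ad (f x) (f (par x))) =
      D'.val + (N + (E0.val + E1 + Fi)) + X1b + X1a + {U} := by
    rw [← hsum2]
    have h1 : ((univ \ L₀).erase v).val.map (fun x => ad (f x) (f (par x))) + Q.val.map δ =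
        (D'.val + (∑ i ∈ range n, dm (g (a i 0) :: (yl i ++ [g (a i 68)])) + {U - y c₁}) + X1b +
          X1a + {U}) + Q.val.map δ := by
      have h2 := hf2
      rw [add_assoc (((univ \ L₀).erase v).val.map (fun x => ad (f x) (f (par x)))), ← hQm,
        sum_sing Gd, hK1, hy0] at h2
      rw [h2]
      change (W.erase v).val.map δ + _ + X1b + _ + _ = _
      rw [hDDm]
      abel
    exact add_right_cancel h1
  have heq : ((univ \ L₀).erase v).val.map f =
      ((univ \ L₀).erase v).val.map (fun x => ad (f x) (f (par x))) := by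
    rw [hf1', hf2']
    calc LL.val + (N + (X0.val + X1a + X1b + Fi)) + ({U} + E1)
        = (LL.val + X0.val) + (N + X1a + X1b + Fi + {U} + E1) := by abel
      _ = (D'.val + E0.val) + (N + X1a + X1b + Fi + {U} + E1) := by rw [hsd]
      _ = D'.val + (N + (E0.val + E1 + Fi)) + X1b + X1a + {U} := by abel
  have hf1'' : ((univ \ L₀).erase v).val.map f =
      (LL.val + X0.val) + ((N + (E1 + X1a + X1b + Fi)) + {U}) := by
    rw [hf1']
    abel
  have hLXm : ∀ b ∈ LL.val + X0.val, 1 ≤ b ∧ b ≤ B ∧ Mt g₁ g₂ g₃ b := by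
    intro b hb
    rcases Multiset.mem_add.1 hb with hb | hb
    · exact hLmem b (mv.1 hb)
    · exact hX0m b hb
  have hHFt : Ft g₁ g₂ g₃ (U - y c₁) := ⟨by omega, Or.inl hg1H, hyH⟩
  have hUFt : Ft g₁ g₂ g₃ U := ⟨by omega, Or.inl hgU, hg3U⟩
  have hNm' : ∀ b ∈ N, Ft g₁ g₂ g₃ b ∧ b ≤ U - y c₁ := by
    intro b hb
    by_cases hbH : b = U - y c₁
    · subst hbH; exact ⟨hHFt, le_rfl⟩
    · have := hNm b hb hbH
      exact ⟨this.1, this.2.1.le⟩
  have hNR : Disjoint N (E1 + X1a + X1b + Fi) := by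
    rw [Multiset.disjoint_left]
    intro b hb hb'
    by_cases hbH : b = U - y c₁
    · have := hRB b hb'
      omega
    · exact (hNm b hb hbH).2.2 (hmem b hb').2
  have hnd2 : ((N + (E1 + X1a + X1b + Fi)) + {U}).Nodup := by
    rw [Multiset.nodup_add]
    refine ⟨Multiset.nodup_add.2 ⟨hNnd, hnd, hNR⟩, Multiset.nodup_singleton _, ?_⟩
    rw [Multiset.disjoint_left]
    intro b hb hb'
    rw [Multiset.mem_singleton] at hb'
    subst hb'
    rcases Multiset.mem_add.1 hb with hb | hb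
    · have := (hNm' _ hb).2
      omega
    · have := hRB _ hb
      omega
  have hnd1 : (LL.val + X0.val).Nodup := by
    rw [Multiset.nodup_add]
    refine ⟨LL.nodup, X0.nodup, ?_⟩
    rw [Multiset.disjoint_left]
    intro b hb hb'
    exact (mem_sdiff.1 (mv.1 hb')).2 (mv.1 hb)
  have hFt2 : ∀ b ∈ (N + (E1 + X1a + X1b + Fi)) + {U}, Ft g₁ g₂ g₃ b ∧ b ≤ U := by
    intro b hb
    rcases Multiset.mem_add.1 hb with hb | hb
    · rcases Multiset.mem_add.1 hb with hb | hb
      · have := hNm' b hb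
        exact ⟨this.1, by omega⟩
      · have := hRB b hb
        exact ⟨(hmem b hb).1, by omega⟩
    · rw [Multiset.mem_singleton.1 hb]
      exact ⟨hUFt, le_rfl⟩
  refine hF V T hT v par hadj hadj' L₀ f hL₀ hfv ?_ ?_ heq
  · rw [hf1'', Multiset.nodup_add]
    refine ⟨hnd1, hnd2, ?_⟩
    rw [Multiset.disjoint_left]
    intro b hb hb'
    exact mt_ft hP (hLXm b hb).2.2 (hFt2 b hb').1
  · intro w hw
    have h1 : f w ∈ ((univ \ L₀).erase v).val.map f := Multiset.mem_map_of_mem f (mv.2 hw)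
    rw [hf1''] at h1
    rcases Multiset.mem_add.1 h1 with h1 | h1
    · have := hLXm _ h1
      exact ⟨this.1, by omega⟩
    · have := hFt2 _ h1
      exact ⟨this.1.1, by omega⟩

end Pool.Agent.W959.SQ
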